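import Pool.Agent.helper22.FI3.SpecCQ

/-! # Row fi3:JBL (MP_baa4d7_al): blocks of the quotient and of the group -/

set_option autoImplicit false

namespace Pool.Agent.FI3

open Pool.Agent.helper58.DC Pool.Agent.DI Pool.Agent.GR Pool.Agent.OB Pool.Agent.DR Pool.Agent.FI

theorem JBL_fwd (hJMG : JMG_stmt) (hDCM : Pool.Agent.FI.DCM_stmt)
    (p : ℕ) (M : Ideal (integralClosure ℤ ℂ)) (hS : Setup p M) (G Gb : Type) [Group G] [Finite G] [Group Gb]
    [Finite Gb] (L Z : Subgroup G) (π : L →* Gb) (hq : Qt p L Z π) (f χ : Gb → ℂ) (h : Induces M f χ) :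
    SB M L (infl π f) (infl π χ) := by
  haveI : Fact p.Prime := ⟨hS.pr⟩
  rw [(hDCM G L M p hS).2]
  intro g hg
  obtain ⟨m, -, -, hm⟩ := hJMG p G Gb L Z π hq g hg
  obtain ⟨a, ha, e⟩ := h (π ⟨g, hg⟩)
  refine ⟨(m : integralClosure ℤ ℂ) * a, M.mul_mem_left _ ha, ?_⟩
  rw [hm f, hm χ]
  push_cast
  rw [← e]
  ring

theorem JBL (hJMG : JMG_stmt) (hJPR : JPR_stmt) (hJIN : JIN_stmt) (hJSG : JSG_stmt) (hJRG : JRG_stmt)
    (hDCM : Pool.Agent.FI.DCM_stmt) (hCLS : Pool.Agent.FI.CLS_stmt) (hTPR : Pool.Agent.FI.TPR_stmt)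
    (hC7 : Pool.Agent.DI.C7_stmt) (hC8 : Pool.Agent.DI.C8_stmt) (hFMX : Pool.Agent.FI.FMX_stmt)
    (hIM : Pool.Agent.helper58.DC.IM_stmt) : JBL_stmt := by
  intro p M hS G Gb _ _ _ _ L Z π hq χ hχ Cb hCb f hf
  haveI : Fact p.Prime := ⟨hS.pr⟩
  constructor
  · exact JBL_fwd hJMG hDCM p M hS G Gb L Z π hq f χ
  · intro hSB
    obtain ⟨hI1, hI2, -, -, -⟩ := hTPR p M hS Gb
    have hex : ∃ χ' ∈ Irr Gb, Induces M f χ' := by
      by_cases hC : Cb = {⊥}
      · refine ⟨f, ?_, (hIM Gb M f f f).1⟩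
        have h1 : nrm Cb = ⊤ := by
          rw [hC]
          unfold nrm
          rw [eq_top_iff]
          refine le_iInf₂ fun Q hQ => ?_
          rw [Finset.mem_singleton] at hQ
          rw [hQ]
          intro x _
          rw [Subgroup.mem_normalizer_iff]
          intro h
          simp
        rw [h1] at hf
        rw [← hI1]
        exact hf
      · obtain ⟨P, hP, hne, hpg, hle, hPn, hnP, hcz⟩ := hFMX Gb p Cb hCb hC
        exact hC8 Gb p M hS.max hS.mem f (hC7 Gb p M hS.max hS.mem P (nrm Cb) hPn hnP hcz hpg f hf)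
    obtain ⟨χ', hχ', hInd⟩ := hex
    have h1 := JBL_fwd hJMG hDCM p M hS G Gb L Z π hq f χ' hInd
    have h2 : SB M L (infl π χ') (infl π χ) := h1.symm.trans hSB
    rw [(hDCM G L M p hS).2] at h2
    have h3 : SB M ⊤ χ' χ := by
      refine hJRG p M hS Gb ⊤ χ (by rw [hI1]; exact hχ) χ' (by rw [hI1]; exact hχ') ?_
      intro y _ hy
      obtain ⟨g, hg, hgr, hgy⟩ := (hJPR p G Gb L Z π hq).1 y hy
      obtain ⟨m, -, hm1, hm⟩ := hJMG p G Gb L Z π hq g hg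
      have h4 := h2 g hg
      rw [hm χ', hm χ, hm1 hgr, hgy] at h4
      have h5 := (hCLS Gb ⊤ y).2.2.2.2.2.2.2.1
      rw [h5 χ', h5 χ] at h4
      simp only [Nat.cast_one, one_mul] at h4
      exact InM.of_mcong hS h4
    have h4 : Induces M χ' χ := (hI2 χ' χ).2 h3
    exact (hIM Gb M f χ' χ).2.2.1 hInd h4

end Pool.Agent.FI3
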